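import Pool.Agent.S08244

set_option autoImplicit false

namespace Pool.Agent.Results.MP_2e0873_gt.OnePoint

/-- A space is Eberlein compact if it is homeomorphic to a subset of a (real) Banach space that is
compact in the weak topology. -/
def EberleinCompact (Y : Type) [TopologicalSpace Y] : Prop :=
  ∃ (E : Type) (_ : NormedAddCommGroup E) (_ : NormedSpace ℝ E) (_ : CompleteSpace E)
    (K : Set (WeakSpace ℝ E)), IsCompact K ∧ Nonempty (Y ≃ₜ K)

/-- the space of continuous real functions, as a subspace of the product -/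
abbrev Cp (X : Type) [TopologicalSpace X] : Type := {f : X → ℝ // Continuous f}

theorem val_homeo {X : Type} [TopologicalSpace X] (A : Set (Cp X)) :
    Nonempty (A ≃ₜ (Subtype.val '' A : Set (X → ℝ))) :=
  ⟨(Topology.IsEmbedding.subtypeVal (p := fun f : X → ℝ => Continuous f)).homeomorphImage A⟩

/-- There is a Tychonoff space `X` such that every compact subspace of `C_p(X)` is Eberlein compact
while `C_p(X × K)` has a compact subspace that is not Eberlein compact, for a compact Hausdorff
space `K`; all points of `X` but one are isolated. -/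
theorem result : ∃ (X : Type) (_ : TopologicalSpace X) (K : Type) (_ : TopologicalSpace K),
    T35Space X ∧ (∃ p : X, ∀ x, x ≠ p → IsOpen ({x} : Set X)) ∧
    (∀ A : Set (Cp X), IsCompact A → EberleinCompact A) ∧
    CompactSpace K ∧ T2Space K ∧
    ∃ B : Set (Cp (X × K)), IsCompact B ∧ ¬ EberleinCompact B := by
  obtain ⟨Ω, _, _, hc, hu, S, hS, hS'⟩ := Pool.Agent.S08244.exists_omega
  refine ⟨Helper639.Eb.XS S, inferInstance, Helper639.Eb.KK Ω, inferInstance, inferInstance,
    ⟨Helper639.Eb.pt S, fun x hx h => absurd h.symm hx⟩, ?_, inferInstance, inferInstance, ?_⟩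
  · intro A hA
    obtain ⟨φ⟩ := val_homeo A
    obtain ⟨E, i1, i2, i3, e, he⟩ := Helper639.Eb.emb_X hc hu hS' (Subtype.val '' A)
      (by rintro _ ⟨f, -, rfl⟩; exact f.2) (hA.image continuous_subtype_val)
    have _ : CompactSpace (Subtype.val '' A : Set (Helper639.Eb.XS S → ℝ)) :=
      isCompact_iff_compactSpace.mp (hA.image continuous_subtype_val)
    exact ⟨E, i1, i2, i3, Set.range e, isCompact_range he.continuous,
      ⟨φ.trans he.toHomeomorph⟩⟩
  · let B : Set (Cp (Helper639.Eb.XS S × Helper639.Eb.KK Ω)) := Subtype.val ⁻¹' Helper639.Eb.BB S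
    have hB : Subtype.val '' B = Helper639.Eb.BB S := by
      rw [Set.image_preimage_eq_inter_range, Set.inter_eq_left]
      intro f hf
      exact ⟨⟨f, Helper639.Eb.BB_continuous hf⟩, rfl⟩
    refine ⟨B, ?_, ?_⟩
    · refine (Topology.IsEmbedding.subtypeVal (p := fun f : Helper639.Eb.XS S × Helper639.Eb.KK Ω → ℝ =>
        Continuous f)).isCompact_iff.mpr ?_
      rw [hB]
      exact Helper639.Eb.BB_compact S
    · rintro ⟨E, i1, i2, i3, K, hK, ⟨ψ⟩⟩
      obtain ⟨φ⟩ := val_homeo B
      have h1 : Topology.IsEmbedding (fun f : Helper639.Eb.BB S =>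
          ((ψ (φ.symm ⟨f.1, by rw [hB]; exact f.2⟩)).1 : WeakSpace ℝ E)) := by
        have h2 : Topology.IsEmbedding (fun f : Helper639.Eb.BB S =>
            (⟨f.1, by rw [hB]; exact f.2⟩ : (Subtype.val '' B : Set _))) :=
          (Homeomorph.setCongr hB.symm).isEmbedding
        exact Topology.IsEmbedding.subtypeVal.comp (ψ.isEmbedding.comp (φ.symm.isEmbedding.comp h2))
      exact Helper639.Eb.not_emb hc hu hS _ h1

end Pool.Agent.Results.MP_2e0873_gt.OnePoint
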